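import Mathlib

set_option autoImplicit false

/-!
# MP_24a6f7_nt: 2-near perfect numbers `2^k p^m`, the case of odd omitted divisors, and Mersenne primes
-/

namespace Pool.Agent.Results.MP_24a6f7_nt.OddOmittedDivisors

open Finset

/-- `d₁ ≠ d₂` are divisors of `n` with `σ(n) = 2 n + d₁ + d₂`. -/
def Omit (n d₁ d₂ : ℕ) : Prop :=
  d₁ ∈ n.divisors ∧ d₂ ∈ n.divisors ∧ d₁ ≠ d₂ ∧ ∑ d ∈ n.divisors, d = 2 * n + d₁ + d₂

/-- `n` is 2-near perfect. -/
def TwoNearPerfect (n : ℕ) : Prop := ∃ d₁ d₂, Omit n d₁ d₂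

/-- The 2-near perfect numbers `2^k p^m`, `k ≥ 1`, `p` an odd prime. -/
def A (m : ℕ) : Set ℕ :=
  {n | ∃ k p, 1 ≤ k ∧ p.Prime ∧ p ≠ 2 ∧ n = 2 ^ k * p ^ m ∧ TwoNearPerfect n}

/-- The numbers `2^k p^m`, `k ≥ 1`, `p` an odd prime, which are 2-near perfect with two odd omitted
divisors. -/
def B (m : ℕ) : Set ℕ :=
  {n | ∃ k p, 1 ≤ k ∧ p.Prime ∧ p ≠ 2 ∧ n = 2 ^ k * p ^ m ∧ ∃ d₁ d₂, Odd d₁ ∧ Odd d₂ ∧ Omit n d₁ d₂}

/-- The Mersenne primes. -/
def Mersenne : Set ℕ := {p | p.Prime ∧ ∃ q, p + 1 = 2 ^ q}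

theorem sigma_eq (k m p : ℕ) (hp : p.Prime) (hp2 : p ≠ 2) :
    ∑ d ∈ (2 ^ k * p ^ m).divisors, d =
      (∑ i ∈ range (k + 1), 2 ^ i) * ∑ i ∈ range (m + 1), p ^ i := by
  have hc : Nat.Coprime (2 ^ k) (p ^ m) :=
    Nat.Coprime.pow _ _ ((Nat.coprime_primes Nat.prime_two hp).2 (Ne.symm hp2))
  rw [← ArithmeticFunction.sigma_one_apply, ArithmeticFunction.isMultiplicative_sigma.map_mul_of_coprime hc,
    ArithmeticFunction.sigma_one_apply_prime_pow Nat.prime_two, ArithmeticFunction.sigma_one_apply_prime_pow hp]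

theorem two_sum (k : ℕ) : (∑ i ∈ range (k + 1), 2 ^ i) + 1 = 2 ^ (k + 1) := by
  have := Nat.geomSum_eq (le_refl 2) (k + 1)
  have h1 : 1 ≤ 2 ^ (k + 1) := Nat.one_le_two_pow
  simp at this
  omega

theorem lt_geom {p m b : ℕ} (hp : 3 ≤ p) (hm : 3 ≤ m) (hb : b < m) :
    2 + p ^ b < ∑ i ∈ range m, p ^ i := by
  have h9 : 3 * p ≤ p ^ 2 := by nlinarith
  by_cases h : b ≤ 2
  · have h1 : ∑ i ∈ range 3, p ^ i ≤ ∑ i ∈ range m, p ^ i :=
      sum_le_sum_of_subset (range_subset_range.2 hm)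
    simp only [sum_range_succ, range_zero, sum_empty, pow_zero, pow_one] at h1
    interval_cases b
    · simp; omega
    · simp; omega
    · omega
  · have h1 : ∑ i ∈ insert b (range 3), p ^ i ≤ ∑ i ∈ range m, p ^ i := by
      apply sum_le_sum_of_subset
      intro i hi
      simp only [mem_insert, mem_range] at hi ⊢
      omega
    rw [sum_insert (by simp; omega)] at h1
    simp only [sum_range_succ, range_zero, sum_empty, pow_zero, pow_one] at h1
    omega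

theorem le_geom {p m b c : ℕ} (hp : 3 ≤ p) (hb : 1 ≤ b) (hbc : b < c) (hc : c < m) :
    1 + p ^ b + p ^ c ≤ ∑ i ∈ range m, p ^ i ∧
      (1 + p ^ b + p ^ c = ∑ i ∈ range m, p ^ i → m = 3 ∧ b = 1 ∧ c = 2) := by
  have hsub : ({0, b, c} : Finset ℕ) ⊆ range m := by
    intro i hi
    simp only [mem_insert, mem_singleton, mem_range] at hi ⊢
    omega
  have hs : ∑ i ∈ ({0, b, c} : Finset ℕ), p ^ i = 1 + p ^ b + p ^ c := by
    rw [sum_insert (by simp; omega), sum_insert (by simp; omega)]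
    simp; ring
  refine ⟨by rw [← hs]; exact sum_le_sum_of_subset hsub, fun h => ?_⟩
  by_contra hcon
  have hex : ∃ i ∈ range m, i ∉ ({0, b, c} : Finset ℕ) := by
    by_contra hno
    push Not at hno
    have hcard : (range m).card ≤ ({0, b, c} : Finset ℕ).card := card_le_card hno
    have h3 : ({0, b, c} : Finset ℕ).card ≤ 3 := card_le_three
    rw [card_range] at hcard
    omega
  obtain ⟨i, hi, hni⟩ := hex
  have := sum_lt_sum_of_subset (f := fun i => p ^ i) hsub hi hni (by positivity) (fun j _ _ => Nat.zero_le _)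
  rw [hs] at this
  omega


/-- combination: bounds for a product -/
theorem mulle {a b c d : ℤ} (h1 : a ≤ b) (h2 : c ≤ d) (hc : 0 ≤ c) (hb : 0 ≤ b) : a * c ≤ b * d :=
  le_trans (mul_le_mul_of_nonneg_right h1 hc) (mul_le_mul_of_nonneg_left h2 hb)

theorem caseA {N P U X Y B C G2 : ℤ} (hP : 3 ≤ P) (hU : 0 < U) (hG2 : 1 ≤ G2) (hNP : 1 ≤ N - P)
    (hX : 2 * X ≤ N) (hY : 2 * Y ≤ N) (hB : 0 < B) (hC : 0 < C) (hCU : C ≤ U)
    (h : (B = C ∧ 4 * (X + Y) ≤ 3 * N) ∨ 3 * B ≤ C)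
    (heq : (N - P) * (G2 + U + P * U) = 1 + X * B + Y * C) : False := by
  have hN : 0 < N := by linarith
  have key : X * B + Y * C < N * U := by
    rcases h with ⟨rfl, h⟩ | h
    · have h1 : (4 * (X + Y)) * B ≤ (3 * N) * B := mul_le_mul_of_nonneg_right h hB.le
      have h2 : N * B ≤ N * U := mul_le_mul_of_nonneg_left hCU hN.le
      have h3 : 0 < N * B := mul_pos hN hB
      linarith
    · have h1 : (2 * X) * B ≤ N * B := mul_le_mul_of_nonneg_right hX hB.le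
      have h2 : (2 * Y) * C ≤ N * C := mul_le_mul_of_nonneg_right hY hC.le
      have h3 : N * (3 * B) ≤ N * C := mul_le_mul_of_nonneg_left h hN.le
      have h4 : N * C ≤ N * U := mul_le_mul_of_nonneg_left hCU hN.le
      have h5 : 0 < N * U := mul_pos hN hU
      linarith
  have h1 : (N - P) * (1 + U + P * U) ≤ (N - P) * (G2 + U + P * U) :=
    mul_le_mul_of_nonneg_left (by linarith) (by linarith)
  have h3 : ((N - P) * (1 + P)) * U < N * U := by
    have : (N - P) * (1 + U + P * U) = (N - P) + ((N - P) * (1 + P)) * U := by ring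
    linarith
  have h4 : (N - P) * (1 + P) < N := lt_of_mul_lt_mul_right h3 hU.le
  have h5 : N * P < P * (P + 1) := by
    have : (N - P) * (1 + P) = N + N * P - P * (P + 1) := by ring
    linarith
  have h6 : (P + 1) * P ≤ N * P := mul_le_mul_of_nonneg_right (by linarith) (by linarith)
  linarith

theorem caseB {N P U X Y B G2 : ℤ} (hP : 3 ≤ P) (hU : 0 < U) (hG2 : 1 ≤ G2) (hNP : 1 ≤ N - P)
    (hX : 2 * X ≤ N) (hY : 2 * Y ≤ N) (hB : 0 < B) (hBU : B ≤ U)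
    (heq : (N - P) * (G2 + U + P * U) = 1 + X * B + Y * (P * U)) : N ≤ 2 * P := by
  have hN : 0 < N := by linarith
  have h1 : (N - P) * (1 + U + P * U) ≤ (N - P) * (G2 + U + P * U) :=
    mul_le_mul_of_nonneg_left (by linarith) (by linarith)
  have h2 : (2 * X) * B ≤ N * B := mul_le_mul_of_nonneg_right hX hB.le
  have h2' : N * B ≤ N * U := mul_le_mul_of_nonneg_left hBU hN.le
  have hPU : 0 < P * U := mul_pos (by linarith) hU
  have h3 : (2 * Y) * (P * U) ≤ N * (P * U) := mul_le_mul_of_nonneg_right hY hPU.le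
  have h4 : (2 * (N - P)) * (U + P * U) ≤ N * (U + P * U) := by
    have : (N - P) * (1 + U + P * U) = (N - P) + (N - P) * (U + P * U) := by ring
    have : N * (U + P * U) = N * U + N * (P * U) := by ring
    linarith
  have h5 : 2 * (N - P) ≤ N := le_of_mul_le_mul_right h4 (by linarith)
  linarith

theorem caseC {N P U V X Y G2 : ℤ} (hP : 3 ≤ P) (hU : 0 < U) (hV : U = P * V) (hG2 : 1 ≤ G2)
    (hNP : 1 ≤ N - P) (hXY : 4 * (X + Y) ≤ 3 * N)
    (hG : G2 + U + P * U = 1 + P * (1 + P * G2))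
    (heq : (N - P) * (G2 + U + P * U) = 1 + X * (P * U) + Y * (P * U)) : False := by
  have hd : P ^ 2 ∣ N - 1 := ⟨(N - 1) + (1 - P) * ((X + Y) * V - (N - P) * G2 + 1), by
    rw [hG, hV] at heq
    linear_combination (1 - P) * heq⟩
  have h5 : P ^ 2 ≤ N - 1 := Int.le_of_dvd (by linarith) hd
  have h1 : (N - P) * (1 + U + P * U) ≤ (N - P) * (G2 + U + P * U) :=
    mul_le_mul_of_nonneg_left (by linarith) (by linarith)
  have hPU : 0 < P * U := mul_pos (by linarith) hU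
  have h6 : (4 * (X + Y)) * (P * U) ≤ (3 * N) * (P * U) := mul_le_mul_of_nonneg_right hXY hPU.le
  have h7 : (4 * (N - P) * (1 + P)) * U ≤ (3 * N * P) * U := by
    have : (N - P) * (1 + U + P * U) = (N - P) + (N - P) * (1 + P) * U := by ring
    linarith
  have h8 : 4 * (N - P) * (1 + P) ≤ 3 * N * P := le_of_mul_le_mul_right h7 hU
  have h9 : N * (P + 4) ≤ 4 * P * (P + 1) := by linarith
  have h10 : (P ^ 2 + 1) * (P + 4) ≤ N * (P + 4) := mul_le_mul_of_nonneg_right (by linarith) (by linarith)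
  nlinarith [mul_nonneg (show 0 ≤ P - 3 by linarith) (show 0 ≤ P * P by positivity)]

theorem caseB0 {N P U V X Y G2 : ℤ} (hP : 3 ≤ P) (hV : U = P * V) (hNP : 1 ≤ N - P) (hN : N < 2 * P)
    (hX : 2 * X ≤ N) (hX1 : 1 ≤ X) (hG : G2 + U + P * U = 1 + P * (1 + P * G2))
    (heq : (N - P) * (G2 + U + P * U) = 1 + X * 1 + Y * (P * U)) : False := by
  rw [hG] at heq
  have hd : P ∣ (N - P) - 1 - X := ⟨Y * U - (N - P) * (1 + P * G2), by linear_combination heq⟩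
  have h0 : (N - P) - 1 - X = 0 := Int.eq_zero_of_abs_lt_dvd hd (by rw [abs_lt]; constructor <;> linarith)
  have h7 : P * ((1 + X) * (1 + P * G2)) = P * (Y * U) := by
    have : N - P = 1 + X := by linarith
    rw [this] at heq
    linear_combination heq
  have h8 : (1 + X) * (1 + P * G2) = Y * U := mul_left_cancel₀ (by linarith) h7
  have hd2 : P ∣ 1 + X := ⟨Y * V - (1 + X) * G2, by rw [hV] at h8; linear_combination h8⟩
  have := Int.le_of_dvd (by linarith) hd2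
  linarith

/-- here `N = P + 1` results; `B = P * B'` -/
theorem caseB1 {N P U V X Y B' G2 : ℤ} (hP : 3 ≤ P) (hU : 0 < U) (hV : U = P * V) (_hG2 : 1 ≤ G2)
    (hG2U : G2 ≤ U) (hNP : 1 ≤ N - P) (hN : N < 2 * P)
    (hX1 : 1 ≤ X) (hB' : 1 ≤ B') (hY1 : 1 ≤ Y)
    (hG : G2 + U + P * U = 1 + P * (1 + P * G2))
    (heq : (N - P) * (G2 + U + P * U) = 1 + X * (P * B') + Y * (P * U)) :
    N = P + 1 ∧ Y = 1 ∧ X * B' = 1 + P * (G2 - V) := by
  have heq2 := heq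
  rw [hG] at heq2
  have hd : P ∣ (N - P) - 1 := ⟨X * B' + Y * U - (N - P) * (1 + P * G2), by linear_combination heq2⟩
  have h0 : (N - P) - 1 = 0 := Int.eq_zero_of_abs_lt_dvd hd (by rw [abs_lt]; constructor <;> linarith)
  have hN1 : N - P = 1 := by linarith
  rw [hN1] at heq heq2
  have hPU : 0 < P * U := mul_pos (by linarith) hU
  have hXB : 0 < X * (P * B') := by positivity
  have hY : Y = 1 := by
    by_contra hne
    have hY2 : 2 ≤ Y := by omega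
    have h1 : 2 * (P * U) ≤ Y * (P * U) := mul_le_mul_of_nonneg_right hY2 hPU.le
    have h2 : 3 * U ≤ P * U := mul_le_mul_of_nonneg_right hP hU.le
    linarith
  refine ⟨by linarith, hY, ?_⟩
  subst hY
  have : P * (X * B') = P * (1 + P * (G2 - V)) := by
    rw [hV] at heq2
    linear_combination -heq2
  exact mul_left_cancel₀ (by linarith) this

theorem gs (P : ℤ) (n : ℕ) : ∑ i ∈ range (n + 1), P ^ i = 1 + P * ∑ i ∈ range n, P ^ i := by
  rw [sum_range_succ', mul_sum]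
  simp only [pow_zero, pow_succ']
  ring

theorem gs_lt (P : ℤ) (hP : 3 ≤ P) (n : ℕ) : ∑ i ∈ range n, P ^ i ≤ P ^ n := by
  induction n with
  | zero => simp
  | succ n ih =>
    rw [sum_range_succ, pow_succ]
    have : 0 < P ^ n := by positivity
    nlinarith

theorem X1 {k r p a a' b c : ℕ} (hp : p.Prime) (hp2 : p ≠ 2) (hk : 1 ≤ k) (ha : a ≤ k) (ha' : a' ≤ k)
    (hbc : b ≤ c) (hc : c ≤ r + 2) (hne : ¬ (a = a' ∧ b = c))
    (heq : ((2 : ℤ) ^ (k + 1) - p) * (∑ i ∈ range (r + 3), (p : ℤ) ^ i) =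
      1 + 2 ^ a * (p : ℤ) ^ b + 2 ^ a' * (p : ℤ) ^ c) :
    r = 0 ∧ b = 1 ∧ c = 2 ∧ a = 0 ∧ a' = 0 ∧ p + 1 = 2 ^ (k + 1) := by
  have hp3 : (3 : ℤ) ≤ p := by
    have := hp.two_le
    have : 3 ≤ p := by omega
    exact_mod_cast this
  have hodd : Odd p := hp.odd_of_ne_two hp2
  have hX1 : (1 : ℤ) ≤ 2 ^ a := one_le_pow₀ (by norm_num)
  have hY1 : (1 : ℤ) ≤ 2 ^ a' := one_le_pow₀ (by norm_num)
  have hXN : (2 : ℤ) * 2 ^ a ≤ 2 ^ (k + 1) := by
    rw [← pow_succ']; exact pow_le_pow_right₀ (by norm_num) (by omega)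
  have hYN : (2 : ℤ) * 2 ^ a' ≤ 2 ^ (k + 1) := by
    rw [← pow_succ']; exact pow_le_pow_right₀ (by norm_num) (by omega)
  have hXY : b = c → 4 * ((2 : ℤ) ^ a + 2 ^ a') ≤ 3 * 2 ^ (k + 1) := by
    intro hb
    have hn : a ≠ a' := fun h => hne ⟨h, hb⟩
    rcases lt_or_gt_of_ne hn with h | h
    · have : (2 : ℤ) * 2 ^ a ≤ 2 ^ a' := by
        rw [← pow_succ']; exact pow_le_pow_right₀ (by norm_num) (by omega)
      linarith
    · have : (2 : ℤ) * 2 ^ a' ≤ 2 ^ a := by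
        rw [← pow_succ']; exact pow_le_pow_right₀ (by norm_num) (by omega)
      linarith
  have hNe : ∃ t : ℤ, (2 : ℤ) ^ (k + 1) = 4 * t := ⟨2 ^ (k - 1), by
    obtain ⟨j, rfl⟩ := Nat.exists_eq_add_of_le hk
    rw [show 1 + j - 1 = j by omega, show 1 + j + 1 = j + 2 by omega, pow_add]; ring⟩
  have hcastN : ((2 ^ (k + 1) : ℕ) : ℤ) = 2 ^ (k + 1) := by push_cast; rfl
  have hXa : (2 : ℤ) ^ a = 1 → a = 0 := by
    intro h
    by_contra hcon
    have : (2 : ℤ) ^ 1 ≤ 2 ^ a := pow_le_pow_right₀ (by norm_num) (by omega)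
    linarith
  have hYa : (2 : ℤ) ^ a' = 1 → a' = 0 := by
    intro h
    by_contra hcon
    have : (2 : ℤ) ^ 1 ≤ 2 ^ a' := pow_le_pow_right₀ (by norm_num) (by omega)
    linarith
  generalize (2 : ℤ) ^ (k + 1) = N at *
  generalize (2 : ℤ) ^ a = X at *
  generalize (2 : ℤ) ^ a' = Y at *
  have hPp : ∃ P : ℤ, P = (p : ℤ) := ⟨_, rfl⟩
  obtain ⟨P, hPe⟩ := hPp
  rw [← hPe] at hp3 heq
  obtain ⟨G2, hG2⟩ : ∃ G2 : ℤ, G2 = ∑ i ∈ range (r + 1), P ^ i := ⟨_, rfl⟩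
  have hH : G2 = ∑ i ∈ range r, P ^ i + P ^ r := by rw [hG2, sum_range_succ]
  have hG2pos : 1 ≤ G2 := by
    rw [hG2, gs]
    have : 0 ≤ ∑ i ∈ range r, P ^ i := sum_nonneg (fun i _ => by positivity)
    nlinarith
  have hG : ∑ i ∈ range (r + 3), P ^ i = G2 + P ^ (r + 1) + P * P ^ (r + 1) := by
    rw [sum_range_succ, sum_range_succ, ← hG2]; ring
  have hG' : ∑ i ∈ range (r + 3), P ^ i = 1 + P * (1 + P * G2) := by
    rw [gs P (r + 2), gs P (r + 1), ← hG2]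
  have hGU : G2 ≤ P ^ (r + 1) := by rw [hG2]; exact gs_lt P hp3 (r + 1)
  have hV : P ^ (r + 1) = P * P ^ r := by ring
  have hPU : P ^ (r + 2) = P * P ^ (r + 1) := by ring
  have hpos : ∀ j, 0 < P ^ j := fun j => by positivity
  have hUpos := hpos (r + 1)
  rw [hG] at heq hG'
  have hNP : 1 ≤ N - P := by
    by_contra hcon
    have h1 : N - P ≤ 0 := by omega
    have h2 : 0 < G2 + P ^ (r + 1) + P * P ^ (r + 1) := by positivity
    have h3 : 0 < X * P ^ b := mul_pos (by linarith) (hpos b)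
    have h4 : 0 < Y * P ^ c := mul_pos (by linarith) (hpos c)
    have h5 : (N - P) * (G2 + P ^ (r + 1) + P * P ^ (r + 1)) ≤ 0 :=
      mul_nonpos_of_nonpos_of_nonneg h1 h2.le
    linarith
  have hNlt : N ≤ 2 * P → N < 2 * P := by
    intro h
    obtain ⟨t, ht⟩ := hNe
    obtain ⟨s, hs⟩ := hodd
    have hs' : P = 2 * s + 1 := by rw [hPe, hs]; push_cast; ring
    omega
  rcases Nat.lt_or_ge c (r + 2) with hcr | hcr
  · exfalso
    have hcU : P ^ c ≤ P ^ (r + 1) := pow_le_pow_right₀ (by linarith) (by omega)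
    refine caseA hp3 hUpos hG2pos hNP hXN hYN (hpos b) (hpos c) hcU ?_ heq
    rcases Nat.eq_or_lt_of_le hbc with h | h
    · left; subst h; exact ⟨rfl, hXY rfl⟩
    · right
      have h5 : P ^ (b + 1) ≤ P ^ c := pow_le_pow_right₀ (by linarith) (by omega)
      rw [pow_succ'] at h5
      have h6 : 3 * P ^ b ≤ P * P ^ b := mul_le_mul_of_nonneg_right hp3 (hpos b).le
      linarith
  · have hc2 : c = r + 2 := le_antisymm hc hcr
    subst hc2
    rw [hPU] at heq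
    rcases Nat.lt_or_ge b (r + 2) with hbr | hbr
    · have hbU : P ^ b ≤ P ^ (r + 1) := pow_le_pow_right₀ (by linarith) (by omega)
      have hN2 := hNlt (caseB hp3 hUpos hG2pos hNP hXN hYN (hpos b) hbU heq)
      rcases Nat.eq_zero_or_pos b with hb0 | hb0
      · exfalso
        subst hb0
        rw [pow_zero] at heq
        exact caseB0 hp3 hV hNP hN2 hXN hX1 hG' heq
      · obtain ⟨b', rfl⟩ := Nat.exists_eq_add_of_le hb0
        have hB' : 1 ≤ P ^ b' := one_le_pow₀ (by linarith)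
        have hb1 : P ^ (1 + b') = P * P ^ b' := by ring
        rw [hb1] at heq
        obtain ⟨e1, e2, e3⟩ := caseB1 hp3 hUpos hV hG2pos hGU hNP hN2 hX1 hB' hY1 hG' heq
        have e4 : G2 - P ^ r = ∑ i ∈ range r, P ^ i := by rw [hH]; ring
        rw [e4] at e3
        have hb'0 : b' = 0 := by
          by_contra hcon
          have hd : P ∣ 1 := by
            obtain ⟨b'', rfl⟩ := Nat.exists_eq_succ_of_ne_zero hcon
            exact ⟨X * P ^ b'' - ∑ i ∈ range r, P ^ i, by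
              rw [Nat.succ_eq_add_one, pow_succ'] at e3
              linear_combination -e3⟩
          have := Int.le_of_dvd (by norm_num) hd
          linarith
        subst hb'0
        have hr0 : r = 0 := by
          by_contra hcon
          obtain ⟨r', rfl⟩ := Nat.exists_eq_succ_of_ne_zero hcon
          have h1 : 1 ≤ ∑ i ∈ range (r'.succ), P ^ i := by
            rw [Nat.succ_eq_add_one, gs]
            have : 0 ≤ ∑ i ∈ range r', P ^ i := sum_nonneg (fun i _ => by positivity)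
            nlinarith
          have h2 : P * 1 ≤ P * ∑ i ∈ range (r'.succ), P ^ i :=
            mul_le_mul_of_nonneg_left h1 (by linarith)
          rw [pow_zero, mul_one] at e3
          linarith
        subst hr0
        simp at e3
        refine ⟨rfl, rfl, rfl, hXa e3, hYa e2, ?_⟩
        have : ((p + 1 : ℕ) : ℤ) = ((2 ^ (k + 1) : ℕ) : ℤ) := by
          rw [hcastN, e1, hPe]; push_cast; ring
        exact_mod_cast this
    · exfalso
      have hb2 : b = r + 2 := by omega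
      subst hb2
      rw [hPU] at heq
      exact caseC hp3 hUpos hV hG2pos hNP (hXY rfl) hG' heq

/-- Both omitted divisors are divisible by `p ^ m`: impossible. -/
theorem X2 {k r p a a' : ℕ} (hp : p.Prime) (hp2 : p ≠ 2) (ha : a < a') (ha' : a' ≤ k)
    (heq : ((2 : ℤ) ^ (k + 1) - p) * (∑ i ∈ range (r + 3), (p : ℤ) ^ i) =
      1 + 2 ^ a * (p : ℤ) ^ (r + 3) + 2 ^ a' * (p : ℤ) ^ (r + 3)) : False := by
  have hp3 : (3 : ℤ) ≤ p := by
    have := hp.two_le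
    have : 3 ≤ p := by omega
    exact_mod_cast this
  have hodd : Odd p := hp.odd_of_ne_two hp2
  have hX1 : (1 : ℤ) ≤ 2 ^ a := one_le_pow₀ (by norm_num)
  have hY1 : (1 : ℤ) ≤ 2 ^ a' := one_le_pow₀ (by norm_num)
  have hXN : (2 : ℤ) ^ a ∣ 2 ^ (k + 1) := pow_dvd_pow 2 (by omega)
  have hYN : (2 : ℤ) ^ a' ∣ 2 ^ (k + 1) := pow_dvd_pow 2 (by omega)
  have hXY : (2 : ℤ) ^ a ∣ 2 ^ a' := pow_dvd_pow 2 (by omega)
  have hgeo : ((p : ℤ) - 1) * (∑ i ∈ range (r + 3), (p : ℤ) ^ i) = (p : ℤ) ^ (r + 3) - 1 :=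
    mul_geom_sum (p : ℤ) (r + 3)
  obtain ⟨G3, hG3⟩ : ∃ G3 : ℤ, G3 = ∑ i ∈ range r, (p : ℤ) ^ i := ⟨_, rfl⟩
  have hG3p : 0 ≤ G3 := by rw [hG3]; exact sum_nonneg (fun i _ => by positivity)
  have hGf : ∑ i ∈ range (r + 3), (p : ℤ) ^ i = 1 + p * (1 + p * (1 + p * G3)) := by
    rw [gs _ (r + 2), gs _ (r + 1), gs _ r, ← hG3]
  -- `u`
  obtain ⟨G, hG⟩ : ∃ G : ℤ, G = ∑ i ∈ range (r + 3), (p : ℤ) ^ i := ⟨_, rfl⟩
  rw [← hG] at heq hgeo hGf
  have hu : ((2 : ℤ) ^ (k + 1) - p - (2 ^ a + 2 ^ a') * (p - 1)) * G = 1 + 2 ^ a + 2 ^ a' := by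
    linear_combination heq - (2 ^ a + 2 ^ a') * hgeo
  obtain ⟨u, hue⟩ : ∃ u : ℤ, u = (2 : ℤ) ^ (k + 1) - p - (2 ^ a + 2 ^ a') * (p - 1) := ⟨_, rfl⟩
  rw [← hue] at hu
  have hNodd : ∀ x : ℤ, 1 < x → x ∣ 2 ^ (k + 1) → ¬ Odd x := by
    intro x hx1 hxd hxo
    have hc : IsCoprime x (2 ^ (k + 1)) := by
      apply IsCoprime.pow_right
      obtain ⟨s, rfl⟩ := hxo
      exact ⟨1, -s, by ring⟩
    have := hc.isUnit_of_dvd' dvd_rfl hxd
    rcases Int.isUnit_iff.1 this with h | h <;> omega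
  generalize (2 : ℤ) ^ (k + 1) = N at *
  generalize (2 : ℤ) ^ a = X at *
  generalize (2 : ℤ) ^ a' = Y at *
  obtain ⟨P, hP⟩ : ∃ P : ℤ, P = (p : ℤ) := ⟨_, rfl⟩
  rw [← hP] at hp3 hGf hue
  have hGpos : 1 + P + P ^ 2 ≤ G := by
    rw [hGf]
    have : 0 ≤ P * (P * (P * G3)) := by positivity
    nlinarith
  have hu1 : 1 ≤ u := by
    by_contra hcon
    have h1 : u ≤ 0 := by omega
    have h2 : u * G ≤ 0 := mul_nonpos_of_nonpos_of_nonneg h1 (by nlinarith)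
    linarith
  have hX : X ∣ P + u := by
    have : P + u = N - X * (P - 1) - Y * (P - 1) := by rw [hue]; ring
    rw [this]
    exact dvd_sub (dvd_sub hXN (dvd_mul_right _ _)) (dvd_mul_of_dvd_left hXY _)
  have hY : Y ∣ P + u + X * (P - 1) := by
    have : P + u + X * (P - 1) = N - Y * (P - 1) := by rw [hue]; ring
    rw [this]
    exact dvd_sub hYN (dvd_mul_right _ _)
  have hX' : X ≤ P + u := Int.le_of_dvd (by linarith) hX
  have hY' : Y ≤ P + u + X * (P - 1) := Int.le_of_dvd (by nlinarith) hY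
  have hX2 : X * (P - 1) ≤ (P + u) * (P - 1) := mul_le_mul_of_nonneg_right hX' (by linarith)
  have hbound : u * G ≤ 1 + (P + u) * (P + 1) := by nlinarith
  have hu2 : u = 1 := by
    by_contra hne
    have h2 : 2 ≤ u := by omega
    have h3 : u * (1 + P + P ^ 2) ≤ u * G := mul_le_mul_of_nonneg_left hGpos (by linarith)
    have h4 : u * P ^ 2 ≤ 1 + P + P ^ 2 := by nlinarith
    have h5 : 2 * P ^ 2 ≤ u * P ^ 2 := mul_le_mul_of_nonneg_right h2 (by positivity)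
    nlinarith
  rw [hu2] at hu hbound hue
  have hG30 : G3 = 0 := by
    by_contra hne
    have h1 : 1 ≤ G3 := by omega
    have h2 : P ^ 3 * 1 ≤ P ^ 3 * G3 := mul_le_mul_of_nonneg_left h1 (by positivity)
    have h3 : G = 1 + P + P ^ 2 + P ^ 3 * G3 := by rw [hGf]; ring
    have h4 : P ^ 3 ≤ P + 1 := by nlinarith
    have h5 : 3 * P ^ 2 ≤ P ^ 3 := by
      have : P ^ 3 = P * P ^ 2 := by ring
      rw [this]; exact mul_le_mul_of_nonneg_right hp3 (by positivity)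
    nlinarith
  rw [hG30] at hGf
  have hN : N = (P ^ 2 - P + 1) * (P + 1) := by
    have h1 : X + Y = P + P ^ 2 := by rw [hGf] at hu; linarith
    have h2 : N = 1 + P + (X + Y) * (P - 1) := by linarith
    rw [h2, h1]; ring
  refine hNodd (P ^ 2 - P + 1) (by nlinarith) (by rw [hN]; exact dvd_mul_right _ _) ?_
  have : Even (P * (P - 1)) := Int.even_mul_pred_self P
  have h2 : P ^ 2 - P + 1 = P * (P - 1) + 1 := by ring
  rw [h2]
  exact this.add_one

/-- The main computation. -/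
theorem main {k m p b c : ℕ} (hp : p.Prime) (hp2 : p ≠ 2) (hm : 3 ≤ m) (hbc : b < c)
    (hc : c ≤ m) (h : ∑ d ∈ (2 ^ k * p ^ m).divisors, d = 2 * (2 ^ k * p ^ m) + p ^ b + p ^ c) :
    m = 3 ∧ b = 1 ∧ c = 2 ∧ p + 1 = 2 ^ (k + 1) := by
  have hp3 : 3 ≤ p := by have := hp.two_le; omega
  rw [sigma_eq k m p hp hp2] at h
  have h2 := two_sum k
  set M := ∑ i ∈ range (k + 1), 2 ^ i with hM
  set G := ∑ i ∈ range m, p ^ i with hG
  rw [sum_range_succ, ← hG] at h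
  have hpm : p ^ m = (p - 1) * G + 1 := by
    have := Nat.geomSum_eq hp.two_le m
    have hd : (p - 1) ∣ p ^ m - 1 := by simpa using Nat.sub_dvd_pow_sub_pow p 1 m
    rw [← hG] at this
    rw [this, Nat.mul_div_cancel' hd]
    have : 1 ≤ p ^ m := Nat.one_le_pow _ _ hp.pos
    omega
  have hA : 2 * (2 ^ k * p ^ m) = (M + 1) * p ^ m := by rw [h2]; ring
  rw [hA] at h
  -- work in ℤ
  have hz : ((M : ℤ) - (p - 1)) * G = 1 + (p : ℤ) ^ b + (p : ℤ) ^ c := by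
    have e1 : (M : ℤ) * (G + (p : ℤ) ^ m) = (M + 1) * (p : ℤ) ^ m + (p : ℤ) ^ b + (p : ℤ) ^ c := by
      exact_mod_cast h
    have e2 : (p : ℤ) ^ m = ((p : ℤ) - 1) * G + 1 := by
      have := congrArg (fun x : ℕ => (x : ℤ)) hpm
      push_cast [Nat.cast_sub hp.one_le] at this
      exact this
    linear_combination e1 + e2
  have hGpos : (0 : ℤ) < G := by
    have := lt_geom hp3 hm (show 0 < m by omega)
    rw [← hG] at this
    have : 0 < G := by omega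
    exact_mod_cast this
  have key : ∀ (t : ℤ) (R : ℕ), 0 < R → R < G → t * (G : ℤ) = R → False := by
    intro t R h0 hR ht
    have h0' : (0 : ℤ) < R := by exact_mod_cast h0
    have hR' : (R : ℤ) < G := by exact_mod_cast hR
    have ht0 : 0 < t := by
      by_contra hcon
      nlinarith
    nlinarith
  rcases Nat.lt_or_ge c m with hcm | hcm
  · rcases Nat.eq_zero_or_pos b with hb | hb
    · exfalso
      subst hb
      refine key _ (2 + p ^ c) (by positivity) (lt_geom hp3 hm hcm) (?_ : ((M : ℤ) - (p - 1)) * G = _)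
      rw [hz]; push_cast; ring
    · obtain ⟨hle, heq⟩ := le_geom hp3 hb hbc hcm
      rw [← hG] at hle heq
      rcases Nat.lt_or_ge (1 + p ^ b + p ^ c) G with hlt | hge
      · exfalso
        refine key _ (1 + p ^ b + p ^ c) (by positivity) hlt (?_ : ((M : ℤ) - (p - 1)) * G = _)
        rw [hz]; push_cast; ring
      · have he : 1 + p ^ b + p ^ c = G := le_antisymm hle hge
        obtain ⟨h1, h3, h4⟩ := heq he
        refine ⟨h1, h3, h4, ?_⟩
        have : ((M : ℤ) - (p - 1)) * G = 1 * G := by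
          rw [hz, ← he]; push_cast; ring
        have := mul_right_cancel₀ hGpos.ne' this
        have : (M : ℤ) = p := by linarith
        have : M = p := by exact_mod_cast this
        omega
  · exfalso
    have hcm' : c = m := le_antisymm hc hcm
    subst hcm'
    refine key ((M : ℤ) - 2 * (p - 1)) (2 + p ^ b) (by positivity) (lt_geom hp3 hm hbc) ?_
    have e2 : (p : ℤ) ^ c = ((p : ℤ) - 1) * G + 1 := by
      have := congrArg (fun x : ℕ => (x : ℤ)) hpm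
      push_cast [Nat.cast_sub hp.one_le] at this
      exact this
    push_cast
    linear_combination hz + e2

/-- An odd divisor of `2^k p^m` is a power of `p`. -/
theorem odd_dvd {k m p d : ℕ} (hp : p.Prime) (hd : d ∈ (2 ^ k * p ^ m).divisors) (ho : Odd d) :
    ∃ b ≤ m, d = p ^ b := by
  have h1 := Nat.dvd_of_mem_divisors hd
  have hc : Nat.Coprime d (2 ^ k) := Nat.Coprime.pow_right _ (Nat.coprime_two_right.2 ho)
  exact (Nat.dvd_prime_pow hp).1 (hc.dvd_of_dvd_mul_left h1)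

/-- The Mersenne family. -/
theorem family {k p : ℕ} (_hk : 1 ≤ k) (hp : p.Prime) (hM : p + 1 = 2 ^ (k + 1)) :
    Omit (2 ^ k * p ^ 3) p (p ^ 2) := by
  have hp2 : p ≠ 2 := by
    intro h
    rw [h] at hM
    have : 2 ∣ 2 ^ (k + 1) := dvd_pow_self 2 (by omega)
    omega
  have hn : 2 ^ k * p ^ 3 ≠ 0 := by have := hp.pos; positivity
  refine ⟨?_, ?_, ?_, ?_⟩
  · rw [Nat.mem_divisors]
    exact ⟨Dvd.dvd.mul_left (dvd_pow_self p (by norm_num)) _, hn⟩
  · rw [Nat.mem_divisors]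
    exact ⟨Dvd.dvd.mul_left (pow_dvd_pow p (by norm_num)) _, hn⟩
  · intro h
    have := hp.two_le
    nlinarith
  · rw [sigma_eq k 3 p hp hp2]
    have h2 := two_sum k
    have hs : ∑ i ∈ range (k + 1), 2 ^ i = p := by omega
    rw [hs]
    have h3 : 2 * (2 ^ k * p ^ 3) = (p + 1) * p ^ 3 := by rw [hM]; ring
    rw [h3]
    simp only [sum_range_succ, range_zero, sum_empty]
    ring

/-- `p ^ m` divides both or none of the two omitted divisors. -/
theorem main3 {k m p d₁ d₂ : ℕ} (hk : 1 ≤ k) (hp : p.Prime) (hp2 : p ≠ 2) (hm : 3 ≤ m)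
    (h : Omit (2 ^ k * p ^ m) d₁ d₂) (hiff : p ^ m ∣ d₁ ↔ p ^ m ∣ d₂) :
    m = 3 ∧ p + 1 = 2 ^ (k + 1) ∧ ((d₁ = p ∧ d₂ = p ^ 2) ∨ (d₁ = p ^ 2 ∧ d₂ = p)) := by
  obtain ⟨hd1, hd2, hne, hs⟩ := h
  obtain ⟨r, rfl⟩ : ∃ r, m = r + 3 := ⟨m - 3, by omega⟩
  have hform : ∀ d, d ∈ (2 ^ k * p ^ (r + 3)).divisors →
      ∃ a b, a ≤ k ∧ b ≤ r + 3 ∧ d = 2 ^ a * p ^ b := by
    intro d hd
    obtain ⟨x, y, hx, hy, rfl⟩ := exists_dvd_and_dvd_of_dvd_mul (Nat.dvd_of_mem_divisors hd)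
    obtain ⟨a, ha, rfl⟩ := (Nat.dvd_prime_pow Nat.prime_two).1 hx
    obtain ⟨b, hb, rfl⟩ := (Nat.dvd_prime_pow hp).1 hy
    exact ⟨a, b, ha, hb, rfl⟩
  have hval : ∀ a b : ℕ, p ^ (r + 3) ∣ 2 ^ a * p ^ b → r + 3 ≤ b := by
    intro a b hd
    have hc : Nat.Coprime (p ^ (r + 3)) (2 ^ a) :=
      Nat.Coprime.pow _ _ ((Nat.coprime_primes hp Nat.prime_two).2 hp2)
    exact (Nat.pow_dvd_pow_iff_le_right hp.one_lt).1 (hc.dvd_of_dvd_mul_left hd)
  obtain ⟨a, b, ha, hb, rfl⟩ := hform d₁ hd1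
  obtain ⟨a', c, ha', hc, rfl⟩ := hform d₂ hd2
  rw [sigma_eq k (r + 3) p hp hp2] at hs
  have h2' := two_sum k
  obtain ⟨M, hM⟩ : ∃ M, M = ∑ i ∈ range (k + 1), 2 ^ i := ⟨_, rfl⟩
  rw [← hM] at hs h2'
  have hMz : (M : ℤ) = 2 ^ (k + 1) - 1 := by
    have : ((M + 1 : ℕ) : ℤ) = ((2 ^ (k + 1) : ℕ) : ℤ) := by rw [h2']
    push_cast at this
    linarith
  rw [sum_range_succ] at hs
  have hsz : (M : ℤ) * ((∑ i ∈ range (r + 3), (p : ℤ) ^ i) + (p : ℤ) ^ (r + 3)) =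
      2 * (2 ^ k * (p : ℤ) ^ (r + 3)) + 2 ^ a * (p : ℤ) ^ b + 2 ^ a' * (p : ℤ) ^ c := by
    exact_mod_cast hs
  have hgeo : ((p : ℤ) - 1) * (∑ i ∈ range (r + 3), (p : ℤ) ^ i) = (p : ℤ) ^ (r + 3) - 1 :=
    mul_geom_sum (p : ℤ) (r + 3)
  have heq : ((2 : ℤ) ^ (k + 1) - p) * (∑ i ∈ range (r + 3), (p : ℤ) ^ i) =
      1 + 2 ^ a * (p : ℤ) ^ b + 2 ^ a' * (p : ℤ) ^ c := by
    rw [hMz] at hsz
    rw [pow_succ (2 : ℤ) k] at hsz ⊢
    linear_combination hsz - hgeo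
  have heq' : ((2 : ℤ) ^ (k + 1) - p) * (∑ i ∈ range (r + 3), (p : ℤ) ^ i) =
      1 + 2 ^ a' * (p : ℤ) ^ c + 2 ^ a * (p : ℤ) ^ b := by rw [heq]; ring
  have hnot : ¬ (a = a' ∧ b = c) := by
    rintro ⟨rfl, rfl⟩
    exact hne rfl
  have hnot' : ¬ (a' = a ∧ c = b) := fun h => hnot ⟨h.1.symm, h.2.symm⟩
  by_cases hfull : p ^ (r + 3) ∣ 2 ^ a * p ^ b
  · exfalso
    have hb3 : b = r + 3 := le_antisymm hb (hval a b hfull)
    have hc3 : c = r + 3 := le_antisymm hc (hval a' c (hiff.1 hfull))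
    subst hb3
    subst hc3
    rcases lt_trichotomy a a' with h | h | h
    · exact X2 hp hp2 h ha' heq
    · exact hnot ⟨h, rfl⟩
    · exact X2 hp hp2 h ha heq'
  · have hfull' : ¬ p ^ (r + 3) ∣ 2 ^ a' * p ^ c := fun h => hfull (hiff.2 h)
    have hb2 : b ≤ r + 2 := by
      by_contra hcon
      have : b = r + 3 := by omega
      exact hfull (this ▸ Dvd.intro_left _ rfl)
    have hc2 : c ≤ r + 2 := by
      by_contra hcon
      have : c = r + 3 := by omega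
      exact hfull' (this ▸ Dvd.intro_left _ rfl)
    rcases Nat.le_total b c with hbc | hbc
    · obtain ⟨e1, e2, e3, e4, e5, e6⟩ := X1 hp hp2 hk ha ha' hbc hc2 hnot heq
      subst e1 e2 e3 e4 e5
      exact ⟨rfl, e6, Or.inl ⟨by simp, by simp⟩⟩
    · obtain ⟨e1, e2, e3, e4, e5, e6⟩ := X1 hp hp2 hk ha' ha hbc hb2 hnot' heq'
      subst e1 e2 e3 e4 e5
      exact ⟨rfl, e6, Or.inr ⟨by simp, by simp⟩⟩

/-- (1) For `m ≥ 3`, `k ≥ 1`, `p` an odd prime and odd `d₁ < d₂`, the number `2^k p^m` is 2-near perfect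
with omitted divisors `d₁`, `d₂` if and only if `m = 3`, `p = 2^(k+1) - 1`, `d₁ = p`, `d₂ = p^2`.

(2) For `m ≥ 4` there is no 2-near perfect number `2^k p^m` with odd omitted divisors, and for `m = 3`
there are finitely many if and only if there are finitely many Mersenne primes.

(3) If there are only finitely many 2-near perfect numbers `2^k p^3` (a part of Q1), then there are only
finitely many Mersenne primes.

(4) For `m ≥ 3`, `k ≥ 1`, `p` an odd prime and arbitrary `d₁ < d₂` such that `p^m` divides both or none of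
`d₁`, `d₂`, the number `2^k p^m` is 2-near perfect with omitted divisors `d₁`, `d₂` if and only if `m = 3`,
`p = 2^(k+1) - 1`, `d₁ = p`, `d₂ = p^2`. -/
theorem result :
    (∀ k m p d₁ d₂ : ℕ, 1 ≤ k → 3 ≤ m → p.Prime → p ≠ 2 → Odd d₁ → Odd d₂ → d₁ < d₂ →
      (Omit (2 ^ k * p ^ m) d₁ d₂ ↔ m = 3 ∧ p + 1 = 2 ^ (k + 1) ∧ d₁ = p ∧ d₂ = p ^ 2)) ∧
    ((∀ m, 4 ≤ m → B m = ∅) ∧ ((B 3).Finite ↔ Mersenne.Finite)) ∧
    ((A 3).Finite → Mersenne.Finite) ∧
    (∀ k m p d₁ d₂ : ℕ, 1 ≤ k → 3 ≤ m → p.Prime → p ≠ 2 → d₁ < d₂ → (p ^ m ∣ d₁ ↔ p ^ m ∣ d₂) →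
      (Omit (2 ^ k * p ^ m) d₁ d₂ ↔ m = 3 ∧ p + 1 = 2 ^ (k + 1) ∧ d₁ = p ∧ d₂ = p ^ 2)) := by
  have h1 : ∀ k m p d₁ d₂ : ℕ, 1 ≤ k → 3 ≤ m → p.Prime → p ≠ 2 → Odd d₁ → Odd d₂ → d₁ < d₂ →
      (Omit (2 ^ k * p ^ m) d₁ d₂ ↔ m = 3 ∧ p + 1 = 2 ^ (k + 1) ∧ d₁ = p ∧ d₂ = p ^ 2) := by
    intro k m p d₁ d₂ hk hm hp hp2 ho1 ho2 hlt
    constructor
    · rintro ⟨hd1, hd2, -, hs⟩
      obtain ⟨b, hb, rfl⟩ := odd_dvd hp hd1 ho1
      obtain ⟨c, hc, rfl⟩ := odd_dvd hp hd2 ho2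
      have hbc : b < c := (Nat.pow_lt_pow_iff_right hp.one_lt).1 hlt
      obtain ⟨e1, e2, e3, e4⟩ := main hp hp2 hm hbc hc hs
      subst e2; subst e3
      exact ⟨e1, e4, by simp, rfl⟩
    · rintro ⟨rfl, e, rfl, rfl⟩
      exact family hk hp e
  have hodd : ∀ k m p d₁ d₂ : ℕ, 1 ≤ k → 3 ≤ m → p.Prime → p ≠ 2 → Odd d₁ → Odd d₂ →
      Omit (2 ^ k * p ^ m) d₁ d₂ → m = 3 ∧ p + 1 = 2 ^ (k + 1) := by
    intro k m p d₁ d₂ hk hm hp hp2 ho1 ho2 ho
    rcases lt_or_gt_of_ne ho.2.2.1 with hlt | hlt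
    · have := (h1 k m p d₁ d₂ hk hm hp hp2 ho1 ho2 hlt).1 ho
      exact ⟨this.1, this.2.1⟩
    · have ho' : Omit (2 ^ k * p ^ m) d₂ d₁ :=
        ⟨ho.2.1, ho.1, ho.2.2.1.symm, by rw [ho.2.2.2]; ring⟩
      have := (h1 k m p d₂ d₁ hk hm hp hp2 ho2 ho1 hlt).1 ho'
      exact ⟨this.1, this.2.1⟩
  -- the map from Mersenne primes to numbers
  have hmer : ∀ p ∈ Mersenne, ∃ k, 1 ≤ k ∧ p + 1 = 2 ^ (k + 1) ∧ p ≠ 2 := by
    rintro p ⟨hp, q, hq⟩
    have h2 := hp.two_le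
    have hq2 : 2 ≤ q := by
      by_contra hcon
      have : q = 0 ∨ q = 1 := by omega
      rcases this with rfl | rfl <;> simp at hq <;> omega
    refine ⟨q - 1, by omega, by rw [hq]; congr 1; omega, ?_⟩
    rintro rfl
    have : 2 ∣ 2 ^ q := dvd_pow_self 2 (by omega)
    omega
  have hinj : Set.InjOn (fun p : ℕ => (p + 1) / 2 * p ^ 3) Mersenne := by
    intro a ha b hb hab
    simp only at hab
    by_contra hne
    rcases lt_or_gt_of_ne hne with hlt | hlt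
    · have i1 : (a + 1) / 2 ≤ (b + 1) / 2 := by omega
      have i2 : a ^ 3 < b ^ 3 := Nat.pow_lt_pow_left hlt (by norm_num)
      have i3 : 0 < (b + 1) / 2 := by have := hb.1.two_le; omega
      have : (a + 1) / 2 * a ^ 3 < (b + 1) / 2 * b ^ 3 :=
        lt_of_le_of_lt (Nat.mul_le_mul_right _ i1) (Nat.mul_lt_mul_of_pos_left i2 i3)
      omega
    · have i1 : (b + 1) / 2 ≤ (a + 1) / 2 := by omega
      have i2 : b ^ 3 < a ^ 3 := Nat.pow_lt_pow_left hlt (by norm_num)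
      have i3 : 0 < (a + 1) / 2 := by have := ha.1.two_le; omega
      have : (b + 1) / 2 * b ^ 3 < (a + 1) / 2 * a ^ 3 :=
        lt_of_le_of_lt (Nat.mul_le_mul_right _ i1) (Nat.mul_lt_mul_of_pos_left i2 i3)
      omega
  have hmap : ∀ p ∈ Mersenne, (p + 1) / 2 * p ^ 3 ∈ B 3 := by
    intro p hp
    obtain ⟨k, hk, hk2, hp2⟩ := hmer p hp
    have e : (p + 1) / 2 = 2 ^ k := by rw [hk2, pow_succ]; omega
    rw [e]
    have ho : Odd p := hp.1.odd_of_ne_two hp2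
    exact ⟨k, p, hk, hp.1, hp2, rfl, p, p ^ 2, ho, ho.pow, family hk hp.1 hk2⟩
  have hBA : B 3 ⊆ A 3 := by
    rintro n ⟨k, p, hk, hp, hp2, rfl, d₁, d₂, -, -, ho⟩
    exact ⟨k, p, hk, hp, hp2, rfl, d₁, d₂, ho⟩
  have hBM : (B 3).Finite → Mersenne.Finite := fun hf =>
    Set.Finite.of_injOn (f := fun p : ℕ => (p + 1) / 2 * p ^ 3) (fun p hp => hmap p hp) hinj hf
  have h4 : ∀ k m p d₁ d₂ : ℕ, 1 ≤ k → 3 ≤ m → p.Prime → p ≠ 2 → d₁ < d₂ →
      (p ^ m ∣ d₁ ↔ p ^ m ∣ d₂) →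
      (Omit (2 ^ k * p ^ m) d₁ d₂ ↔ m = 3 ∧ p + 1 = 2 ^ (k + 1) ∧ d₁ = p ∧ d₂ = p ^ 2) := by
    intro k m p d₁ d₂ hk hm hp hp2 hlt hiff
    constructor
    · intro ho
      obtain ⟨e1, e2, e3 | e3⟩ := main3 hk hp hp2 hm ho hiff
      · exact ⟨e1, e2, e3.1, e3.2⟩
      · exfalso
        rw [e3.1, e3.2] at hlt
        have := hp.two_le
        nlinarith
    · rintro ⟨rfl, e, rfl, rfl⟩
      exact family hk hp e
  refine ⟨h1, ⟨?_, hBM, ?_⟩, fun hf => hBM (hf.subset hBA), h4⟩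
  · intro m hm
    rw [Set.eq_empty_iff_forall_notMem]
    rintro n ⟨k, p, hk, hp, hp2, rfl, d₁, d₂, o1, o2, ho⟩
    have := (hodd k m p d₁ d₂ hk (by omega) hp hp2 o1 o2 ho).1
    omega
  · intro hf
    refine (hf.image (fun p : ℕ => (p + 1) / 2 * p ^ 3)).subset ?_
    rintro n ⟨k, p, hk, hp, hp2, rfl, d₁, d₂, o1, o2, ho⟩
    have h3 := (hodd k 3 p d₁ d₂ hk le_rfl hp hp2 o1 o2 ho).2
    refine ⟨p, ⟨hp, k + 1, h3⟩, ?_⟩
    have e : (p + 1) / 2 = 2 ^ k := by rw [h3, pow_succ]; omega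
    simp only [e]

end Pool.Agent.Results.MP_24a6f7_nt.OddOmittedDivisors
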